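import Pool.Agent.Lib_MP_112ba8.Final
import Pool.Agent.Lib_MP_6a632e.KSFactor

/-!
Lower bounds for the high integer moments of the Riemann zeta function on the critical line, in
the Keating-Snaith normalisation: the moments are at least `(A/k)^(k^2)` times the conjectured
main term, for every `A < 4 e^(γ - 1/2)` and all `k ≥ k₀(A)`.
-/

namespace Pool.Agent.OldKSLowerBound

open Filter Topology Pool.Agent.ZetaMoment Pool.Agent.KSFactor

/-- The Euler factor at `p` of the arithmetic factor `a_k`, that is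
`(1 - 1/p)^(k^2) * ∑_{m ≥ 0} binom(m+k-1, m)^2 / p^m`. -/
noncomputable def localFactor (k : ℕ) (p : Nat.Primes) : ℝ :=
  (1 - 1 / ((p : ℕ) : ℝ)) ^ (k ^ 2) *
    ∑' m : ℕ, ((m + k - 1).choose m : ℝ) ^ 2 / ((p : ℕ) : ℝ) ^ m

/-- The arithmetic factor `a_k = ∏_p (1 - 1/p)^(k^2) ∑_{m ≥ 0} binom(m+k-1, m)^2 / p^m`. -/
noncomputable def arithFactor (k : ℕ) : ℝ := ∏' p : Nat.Primes, localFactor k p

/-- The random matrix factor `f_k = ∏_{j=0}^{k-1} j!/(j+k)!`. -/
noncomputable def rmtFactor (k : ℕ) : ℝ :=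
  ∏ j ∈ Finset.range k, ((j.factorial : ℝ) / ((j + k).factorial : ℝ))

/-- The `2k`-th moment `M_k(T) = (1/T) ∫_0^T |ζ(1/2+it)|^(2k) dt`. -/
noncomputable def zetaMoment (k : ℕ) (T : ℝ) : ℝ :=
  (1 / T) * ∫ t in (0 : ℝ)..T, ‖riemannZeta (1 / 2 + t * Complex.I)‖ ^ (2 * k)

lemma arithFactor_eq (k : ℕ) : arithFactor k = aG (Fin k) := (aG_hasProd k).tprod_eq

/-- the lower order terms are negligible -/
lemma err_tendsto : Tendsto (fun x : ℝ => (3 * Real.log x + 6) / x) atTop (𝓝 0) := by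
  have h1 : Tendsto (fun x : ℝ => Real.log x / x) atTop (𝓝 0) := by
    simpa using Real.isLittleO_log_id_atTop.tendsto_div_nhds_zero
  have h2 : Tendsto (fun x : ℝ => 6 / x) atTop (𝓝 0) := tendsto_const_nhds.div_atTop tendsto_id
  have h3 := (h1.const_mul 3).add h2
  rw [mul_zero, add_zero] at h3
  refine h3.congr fun x => ?_
  ring

/-- For every `k` the product defining `a_k` converges to a positive number, and for every
`A < 4 e^(γ - 1/2)` (`γ` being Euler's constant) there is `K` such that for all `k ≥ K` and all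
`T ≥ T₀(k)`, `M_k(T) ≥ (A/k)^(k^2) * a_k f_k (log T)^(k^2)`. -/
theorem result :
    (∀ k : ℕ, Multipliable (localFactor k) ∧ 0 < arithFactor k) ∧
    ∀ A : ℝ, 0 < A → A < 4 * Real.exp (Real.eulerMascheroniConstant - 1 / 2) →
      ∃ K : ℕ, ∀ k : ℕ, K ≤ k → ∃ T₀ : ℝ, ∀ T : ℝ, T₀ ≤ T →
        (A / k) ^ (k ^ 2) * (arithFactor k * rmtFactor k * Real.log T ^ (k ^ 2)) ≤
          zetaMoment k T := by
  refine ⟨fun k => ⟨(aG_hasProd k).multipliable, ?_⟩, ?_⟩
  · rw [arithFactor_eq]; exact Real.exp_pos _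
  intro A hA0 hA
  have hlog4 : Real.log 4 = 2 * Real.log 2 := by
    rw [show (4 : ℝ) = 2 ^ 2 by norm_num, Real.log_pow]; push_cast; ring
  have hlogA : Real.log A < 2 * Real.log 2 + (Real.eulerMascheroniConstant - 1 / 2) := by
    have h := Real.log_lt_log hA0 hA
    rwa [Real.log_mul (by norm_num) (Real.exp_pos _).ne', Real.log_exp, hlog4] at h
  obtain ⟨η, hη⟩ : ∃ η : ℝ, η = (2 * Real.log 2 + (Real.eulerMascheroniConstant - 1 / 2) -
    Real.log A) / 2 := ⟨_, rfl⟩
  have hη0 : 0 < η := by rw [hη]; linarith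
  have h1 := bound_m hη0
  have hev := err_tendsto.eventually (gt_mem_nhds hη0)
  have h2 := (tendsto_natCast_atTop_atTop (R := ℝ)).eventually (h1.and hev)
  obtain ⟨K, hK⟩ := eventually_atTop.mp h2
  refine ⟨max K 2, fun k hk => ?_⟩
  have hk1 : K ≤ k := le_trans (le_max_left _ _) hk
  have hk2 : 2 ≤ k := le_trans (le_max_right _ _) hk
  have hk0 : (0 : ℝ) < k := by exact_mod_cast (by omega : 0 < k)
  obtain ⟨h3, h4⟩ := hK k hk1
  obtain ⟨m, hm⟩ : ∃ m, k = m + 2 := ⟨k - 2, by omega⟩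
  have h5 := h3 m (by rw [hm]; push_cast; ring)
  obtain ⟨T₀, hT₀⟩ := eventually_atTop.mp h5
  refine ⟨max T₀ 1, fun T hT => ?_⟩
  have h6 := hT₀ T (le_trans (le_max_left _ _) hT)
  have hT1 : 1 ≤ T := le_trans (le_max_right _ _) hT
  rw [← hm] at h6
  refine le_trans ?_ h6
  have hlogT : 0 ≤ Real.log T := Real.log_nonneg hT1
  rw [arithFactor_eq, show k * k = k ^ 2 by ring, ← mul_assoc]
  refine mul_le_mul_of_nonneg_right ?_ (by positivity)
  have haG : 0 < aG (Fin k) := Real.exp_pos _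
  rw [mul_left_comm]
  refine mul_le_mul_of_nonneg_left ?_ haG.le
  have hfk : rmtFactor k = fk k := rfl
  rw [hfk, ← Real.log_le_log_iff (by have := fk_pos k; positivity) (Real.exp_pos _), Real.log_exp,
    Real.log_mul (by positivity) (fk_pos k).ne', Real.log_pow, Real.log_div hA0.ne' hk0.ne']
  have h7 := log_fk_le k (by omega)
  have h8 : (k : ℝ) * (3 * Real.log k + 6) ≤ (k : ℝ) ^ 2 * η := by
    have := h4.le
    rw [div_le_iff₀ hk0] at this
    nlinarith
  have h9 : Real.log ((k : ℝ) ^ 2) = 2 * Real.log k := by rw [Real.log_pow]; push_cast; ring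
  rw [h9]
  push_cast
  have h10 : Real.log A = 2 * Real.log 2 + (Real.eulerMascheroniConstant - 1 / 2) - 2 * η := by
    rw [hη]; ring
  rw [h10]
  nlinarith

end Pool.Agent.OldKSLowerBound
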